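import Mathlib

/-!
# A nearly Gorenstein, not almost symmetric semigroup of embedding dimension four with four
relations

The numerical semigroup `⟨6, 7, 8, 9⟩` is nearly Gorenstein and not almost symmetric, and over
every field its defining ideal has minimal number of generators `4`.
-/

set_option autoImplicit false

namespace Pool.Agent.Results.MP_8e9e7d_al.FourRelations

universe u

/-- an integer belongs to `Γ` -/
def MemZ (Γ : AddSubmonoid ℕ) (x : ℤ) : Prop := ∃ n ∈ Γ, (n : ℤ) = x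

/-- minimal generators of `Γ` -/
def IsMinGen (Γ : AddSubmonoid ℕ) (g : ℕ) : Prop :=
  g ∈ Γ ∧ g ≠ 0 ∧ ∀ a ∈ Γ, ∀ b ∈ Γ, a + b = g → a = 0 ∨ b = 0

/-- pseudo-Frobenius numbers -/
def PF (Γ : AddSubmonoid ℕ) : Set ℤ :=
  {x | ¬ MemZ Γ x ∧ ∀ s ∈ Γ, s ≠ 0 → MemZ Γ (x + s)}

/-- `F` is the Frobenius number: the largest integer not in `Γ` -/
def IsFrob (Γ : AddSubmonoid ℕ) (F : ℤ) : Prop := ¬ MemZ Γ F ∧ ∀ x : ℤ, F < x → MemZ Γ x

/-- almost symmetric numerical semigroups -/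
def AlmostSymmetric (Γ : AddSubmonoid ℕ) : Prop :=
  ∀ F : ℤ, IsFrob Γ F → ∀ x : ℤ, ¬ MemZ Γ x → MemZ Γ (F - x) ∨ (x ∈ PF Γ ∧ F - x ∈ PF Γ)

/-- nearly Gorenstein numerical semigroups -/
def NearlyGorenstein (Γ : AddSubmonoid ℕ) : Prop :=
  ∀ g, IsMinGen Γ g → ∃ p ∈ PF Γ, ∀ q ∈ PF Γ, MemZ Γ (g + p - q)

/-- the kernel of `k[x_1, ..., x_e] → k[t]`, `x_i ↦ t ^ (g i)` -/
noncomputable def defIdeal (k : Type u) [Field k] {e : ℕ} (g : Fin e → ℕ) :
    Ideal (MvPolynomial (Fin e) k) :=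
  RingHom.ker (MvPolynomial.aeval (fun i => (Polynomial.X : Polynomial k) ^ g i)).toRingHom

/-- `ρ(Γ)`: the minimal number of generators of the defining ideal -/
noncomputable def rho (k : Type u) [Field k] {e : ℕ} (g : Fin e → ℕ) : ℕ :=
  sInf {n | ∃ s : Finset (MvPolynomial (Fin e) k), s.card = n ∧
    Ideal.span (s : Set (MvPolynomial (Fin e) k)) = defIdeal k g}

/-- the semigroup `⟨6, 7, 8, 9⟩ = {0, 6, 7, 8, 9, 12, 13, ...}` -/
def Gam : AddSubmonoid ℕ where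
  carrier := {n | n = 0 ∨ (6 ≤ n ∧ n ≤ 9) ∨ 12 ≤ n}
  zero_mem' := Or.inl rfl
  add_mem' := by
    intro a b ha hb
    simp only [Set.mem_ofPred_eq] at ha hb ⊢
    omega

lemma mem_Gam (n : ℕ) : n ∈ Gam ↔ n = 0 ∨ (6 ≤ n ∧ n ≤ 9) ∨ 12 ≤ n := Iff.rfl

lemma memZ_Gam (x : ℤ) : MemZ Gam x ↔ x = 0 ∨ (6 ≤ x ∧ x ≤ 9) ∨ 12 ≤ x := by
  constructor
  · rintro ⟨n, hn, rfl⟩
    rw [mem_Gam] at hn
    omega
  · intro h
    refine ⟨x.toNat, ?_, by omega⟩
    rw [mem_Gam]
    omega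

lemma minGen_Gam (g : ℕ) : IsMinGen Gam g ↔ 6 ≤ g ∧ g ≤ 9 := by
  constructor
  · rintro ⟨h1, h2, h3⟩
    rw [mem_Gam] at h1
    by_contra hcon
    have hg : 12 ≤ g := by omega
    by_cases h18 : 18 ≤ g
    · have := h3 6 (by rw [mem_Gam]; omega) (g - 6) (by rw [mem_Gam]; omega) (by omega)
      omega
    · have key : ∀ a b : ℕ, (6 ≤ a ∧ a ≤ 9) → (6 ≤ b ∧ b ≤ 9) → a + b = g → False := by
        intro a b ha hb hab
        have := h3 a (by rw [mem_Gam]; omega) b (by rw [mem_Gam]; omega) hab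
        omega
      by_cases h15 : g ≤ 15
      · exact key 6 (g - 6) (by omega) (by omega) (by omega)
      · exact key 9 (g - 9) (by omega) (by omega) (by omega)
  · intro h
    refine ⟨by rw [mem_Gam]; omega, by omega, fun a ha b hb hab => ?_⟩
    rw [mem_Gam] at ha hb
    omega

lemma pf_Gam (x : ℤ) : x ∈ PF Gam ↔ x = 10 ∨ x = 11 := by
  constructor
  · rintro ⟨h1, h2⟩
    rw [memZ_Gam] at h1
    have a6 := (memZ_Gam _).1 (h2 6 (by rw [mem_Gam]; omega) (by omega))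
    have a7 := (memZ_Gam _).1 (h2 7 (by rw [mem_Gam]; omega) (by omega))
    have a8 := (memZ_Gam _).1 (h2 8 (by rw [mem_Gam]; omega) (by omega))
    have a9 := (memZ_Gam _).1 (h2 9 (by rw [mem_Gam]; omega) (by omega))
    push_cast at a6 a7 a8 a9
    omega
  · intro h
    refine ⟨by rw [memZ_Gam]; omega, fun s hs hs0 => ?_⟩
    rw [mem_Gam] at hs
    rw [memZ_Gam]
    omega

lemma nearly : NearlyGorenstein Gam := by
  intro g hg
  rw [minGen_Gam] at hg
  by_cases h : g = 9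
  · refine ⟨10, (pf_Gam _).2 (Or.inl rfl), fun q hq => ?_⟩
    rw [pf_Gam] at hq
    rw [memZ_Gam]
    omega
  · refine ⟨11, (pf_Gam _).2 (Or.inr rfl), fun q hq => ?_⟩
    rw [pf_Gam] at hq
    rw [memZ_Gam]
    omega

lemma not_almost : ¬ AlmostSymmetric Gam := by
  intro h
  have hF : IsFrob Gam 11 := by
    refine ⟨by rw [memZ_Gam]; omega, fun x hx => ?_⟩
    rw [memZ_Gam]; omega
  rcases h 11 hF 1 (by rw [memZ_Gam]; omega) with h1 | h1
  · rw [memZ_Gam] at h1; omega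
  · have := (pf_Gam _).1 h1.1
    omega

section ideal

open MvPolynomial

variable (k : Type u) [Field k]

/-- the four binomials -/
noncomputable def rel : Fin 4 → MvPolynomial (Fin 4) k :=
  ![X 1 * X 1 - X 0 * X 2, X 1 * X 2 - X 0 * X 3, X 2 * X 2 - X 1 * X 3, X 3 * X 3 - X 0 ^ 3]

/-- the ideal generated by them -/
noncomputable def J : Ideal (MvPolynomial (Fin 4) k) := Ideal.span (Set.range (rel k))

lemma J_le : J k ≤ defIdeal k ![6, 7, 8, 9] := by
  refine Ideal.span_le.2 ?_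
  rintro _ ⟨i, rfl⟩
  simp only [defIdeal, SetLike.mem_coe, RingHom.mem_ker, AlgHom.toRingHom_eq_coe,
    RingHom.coe_coe]
  fin_cases i <;> simp [rel] <;> ring

/-- images of the variables in the quotient -/
noncomputable def v (i : Fin 4) : MvPolynomial (Fin 4) k ⧸ J k := Ideal.Quotient.mk (J k) (X i)

lemma r0 : v k 1 * v k 1 = v k 0 * v k 2 := by
  have h : rel k 0 ∈ J k := Ideal.subset_span ⟨0, rfl⟩
  have := Ideal.Quotient.eq_zero_iff_mem.2 h
  simp only [rel, Matrix.cons_val_zero, map_sub, map_mul] at this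
  exact sub_eq_zero.1 this

lemma r1 : v k 1 * v k 2 = v k 0 * v k 3 := by
  have h : rel k 1 ∈ J k := Ideal.subset_span ⟨1, rfl⟩
  have := Ideal.Quotient.eq_zero_iff_mem.2 h
  simp [rel] at this
  exact sub_eq_zero.1 this

lemma r2 : v k 2 * v k 2 = v k 1 * v k 3 := by
  have h : rel k 2 ∈ J k := Ideal.subset_span ⟨2, rfl⟩
  have := Ideal.Quotient.eq_zero_iff_mem.2 h
  simp only [rel, Matrix.cons_val, map_sub, map_mul] at this
  exact sub_eq_zero.1 this

lemma r3 : v k 3 * v k 3 = v k 0 ^ 3 := by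
  have h : rel k 3 ∈ J k := Ideal.subset_span ⟨3, rfl⟩
  have := Ideal.Quotient.eq_zero_iff_mem.2 h
  simp only [rel, Matrix.cons_val, map_sub, map_mul, map_pow] at this
  exact sub_eq_zero.1 this

/-- `m = x ^ e * η` with `η` one of the six normal monomials, of weight `n` -/
def P (n : ℕ) (m : MvPolynomial (Fin 4) k ⧸ J k) : Prop :=
  ∃ e : ℕ, (n = 6 * e ∧ m = v k 0 ^ e) ∨ (n = 6 * e + 7 ∧ m = v k 0 ^ e * v k 1) ∨
    (n = 6 * e + 8 ∧ m = v k 0 ^ e * v k 2) ∨ (n = 6 * e + 9 ∧ m = v k 0 ^ e * v k 3) ∨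
    (n = 6 * e + 16 ∧ m = v k 0 ^ e * (v k 1 * v k 3)) ∨
    (n = 6 * e + 17 ∧ m = v k 0 ^ e * (v k 2 * v k 3))

lemma P_unique {n : ℕ} {m m' : MvPolynomial (Fin 4) k ⧸ J k} (h : P k n m) (h' : P k n m') :
    m = m' := by
  obtain ⟨e, he⟩ := h
  obtain ⟨e', he'⟩ := h'
  rcases he with ⟨h1, h2⟩ | ⟨h1, h2⟩ | ⟨h1, h2⟩ | ⟨h1, h2⟩ | ⟨h1, h2⟩ | ⟨h1, h2⟩ <;>
  rcases he' with ⟨h3, h4⟩ | ⟨h3, h4⟩ | ⟨h3, h4⟩ | ⟨h3, h4⟩ | ⟨h3, h4⟩ | ⟨h3, h4⟩ <;>
  first
  | (exfalso; omega)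
  | (have hee : e = e' := by omega
     subst hee; rw [h2, h4])

lemma P_mul0 {n : ℕ} {m : MvPolynomial (Fin 4) k ⧸ J k} (h : P k n m) :
    P k (n + 6) (m * v k 0) := by
  obtain ⟨e, he⟩ := h
  refine ⟨e + 1, ?_⟩
  rcases he with ⟨h1, h2⟩ | ⟨h1, h2⟩ | ⟨h1, h2⟩ | ⟨h1, h2⟩ | ⟨h1, h2⟩ | ⟨h1, h2⟩
  · left; exact ⟨by omega, by rw [h2]; ring⟩
  · right; left; exact ⟨by omega, by rw [h2]; ring⟩
  · right; right; left; exact ⟨by omega, by rw [h2]; ring⟩
  · right; right; right; left; exact ⟨by omega, by rw [h2]; ring⟩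
  · right; right; right; right; left; exact ⟨by omega, by rw [h2]; ring⟩
  · right; right; right; right; right; exact ⟨by omega, by rw [h2]; ring⟩

lemma P_mul1 {n : ℕ} {m : MvPolynomial (Fin 4) k ⧸ J k} (h : P k n m) :
    P k (n + 7) (m * v k 1) := by
  obtain ⟨e, he⟩ := h
  rcases he with ⟨h1, h2⟩ | ⟨h1, h2⟩ | ⟨h1, h2⟩ | ⟨h1, h2⟩ | ⟨h1, h2⟩ | ⟨h1, h2⟩
  · refine ⟨e, Or.inr (Or.inl ⟨by omega, by rw [h2]⟩)⟩
  · refine ⟨e + 1, Or.inr (Or.inr (Or.inl ⟨by omega, ?_⟩))⟩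
    rw [h2]; linear_combination v k 0 ^ e * r0 k
  · refine ⟨e + 1, Or.inr (Or.inr (Or.inr (Or.inl ⟨by omega, ?_⟩)))⟩
    rw [h2]; linear_combination v k 0 ^ e * r1 k
  · refine ⟨e, Or.inr (Or.inr (Or.inr (Or.inr (Or.inl ⟨by omega, ?_⟩))))⟩
    rw [h2]; ring
  · refine ⟨e + 1, Or.inr (Or.inr (Or.inr (Or.inr (Or.inr ⟨by omega, ?_⟩))))⟩
    rw [h2]; linear_combination v k 0 ^ e * v k 3 * r0 k
  · refine ⟨e + 4, Or.inl ⟨by omega, ?_⟩⟩
    rw [h2]
    linear_combination v k 0 ^ e * v k 3 * r1 k + v k 0 ^ (e + 1) * r3 k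

lemma P_mul2 {n : ℕ} {m : MvPolynomial (Fin 4) k ⧸ J k} (h : P k n m) :
    P k (n + 8) (m * v k 2) := by
  obtain ⟨e, he⟩ := h
  rcases he with ⟨h1, h2⟩ | ⟨h1, h2⟩ | ⟨h1, h2⟩ | ⟨h1, h2⟩ | ⟨h1, h2⟩ | ⟨h1, h2⟩
  · refine ⟨e, Or.inr (Or.inr (Or.inl ⟨by omega, by rw [h2]⟩))⟩
  · refine ⟨e + 1, Or.inr (Or.inr (Or.inr (Or.inl ⟨by omega, ?_⟩)))⟩
    rw [h2]; linear_combination v k 0 ^ e * r1 k
  · refine ⟨e, Or.inr (Or.inr (Or.inr (Or.inr (Or.inl ⟨by omega, ?_⟩))))⟩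
    rw [h2]; linear_combination v k 0 ^ e * r2 k
  · refine ⟨e, Or.inr (Or.inr (Or.inr (Or.inr (Or.inr ⟨by omega, ?_⟩))))⟩
    rw [h2]; ring
  · refine ⟨e + 4, Or.inl ⟨by omega, ?_⟩⟩
    rw [h2]
    linear_combination v k 0 ^ e * v k 3 * r1 k + v k 0 ^ (e + 1) * r3 k
  · refine ⟨e + 3, Or.inr (Or.inl ⟨by omega, ?_⟩)⟩
    rw [h2]
    linear_combination v k 0 ^ e * v k 3 * r2 k + v k 0 ^ e * v k 1 * r3 k

lemma P_mul3 {n : ℕ} {m : MvPolynomial (Fin 4) k ⧸ J k} (h : P k n m) :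
    P k (n + 9) (m * v k 3) := by
  obtain ⟨e, he⟩ := h
  rcases he with ⟨h1, h2⟩ | ⟨h1, h2⟩ | ⟨h1, h2⟩ | ⟨h1, h2⟩ | ⟨h1, h2⟩ | ⟨h1, h2⟩
  · refine ⟨e, Or.inr (Or.inr (Or.inr (Or.inl ⟨by omega, by rw [h2]⟩)))⟩
  · refine ⟨e, Or.inr (Or.inr (Or.inr (Or.inr (Or.inl ⟨by omega, ?_⟩))))⟩
    rw [h2]; ring
  · refine ⟨e, Or.inr (Or.inr (Or.inr (Or.inr (Or.inr ⟨by omega, ?_⟩))))⟩
    rw [h2]; ring
  · refine ⟨e + 3, Or.inl ⟨by omega, ?_⟩⟩
    rw [h2]; linear_combination v k 0 ^ e * r3 k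
  · refine ⟨e + 3, Or.inr (Or.inl ⟨by omega, ?_⟩)⟩
    rw [h2]; linear_combination v k 0 ^ e * v k 1 * r3 k
  · refine ⟨e + 3, Or.inr (Or.inr (Or.inl ⟨by omega, ?_⟩))⟩
    rw [h2]; linear_combination v k 0 ^ e * v k 2 * r3 k

lemma P_mul {n : ℕ} {m : MvPolynomial (Fin 4) k ⧸ J k} (h : P k n m) (i : Fin 4) :
    P k (n + (![6, 7, 8, 9] : Fin 4 → ℕ) i) (m * v k i) := by
  fin_cases i
  · exact P_mul0 k h
  · exact P_mul1 k h
  · exact P_mul2 k h
  · exact P_mul3 k h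

open Classical in
/-- the normal form of weight `n` -/
noncomputable def NF (n : ℕ) : MvPolynomial (Fin 4) k ⧸ J k :=
  if h : ∃ m, P k n m then h.choose else 0

lemma NF_eq {n : ℕ} {m : MvPolynomial (Fin 4) k ⧸ J k} (h : P k n m) : NF k n = m := by
  have h' : ∃ m, P k n m := ⟨m, h⟩
  unfold NF
  rw [dif_pos h']
  exact P_unique k h'.choose_spec h

lemma P_mul_pow {n : ℕ} {m : MvPolynomial (Fin 4) k ⧸ J k} (h : P k n m) (i : Fin 4) (a : ℕ) :
    P k (n + a * (![6, 7, 8, 9] : Fin 4 → ℕ) i) (m * v k i ^ a) := by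
  induction a with
  | zero => simpa using h
  | succ a ih =>
    have h1 := P_mul k ih i
    have e1 : n + (a + 1) * (![6, 7, 8, 9] : Fin 4 → ℕ) i =
        n + a * (![6, 7, 8, 9] : Fin 4 → ℕ) i + (![6, 7, 8, 9] : Fin 4 → ℕ) i := by ring
    have e2 : m * v k i ^ (a + 1) = m * v k i ^ a * v k i := by ring
    rw [e1, e2]; exact h1

/-- the weight of a monomial -/
def wt (u : Fin 4 →₀ ℕ) : ℕ := ∑ i, u i * (![6, 7, 8, 9] : Fin 4 → ℕ) i

lemma mk_monomial (u : Fin 4 →₀ ℕ) :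
    Ideal.Quotient.mk (J k) (monomial u 1) = ∏ i, v k i ^ u i := by
  rw [monomial_eq, Finsupp.prod_fintype _ _ (fun i => pow_zero _)]
  simp [v]

lemma P_monomial (u : Fin 4 →₀ ℕ) : P k (wt u) (Ideal.Quotient.mk (J k) (monomial u 1)) := by
  rw [mk_monomial]
  have h0 : P k 0 1 := ⟨0, Or.inl ⟨by simp, by simp⟩⟩
  have h1 := P_mul_pow k (P_mul_pow k (P_mul_pow k (P_mul_pow k h0 0 (u 0)) 1 (u 1)) 2 (u 2))
    3 (u 3)
  rw [Fin.prod_univ_four]
  unfold wt
  rw [Fin.sum_univ_four]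
  simpa using h1

/-- the linear map `t ^ n ↦ NF n` -/
noncomputable def Lam : Polynomial k →ₗ[k] (MvPolynomial (Fin 4) k ⧸ J k) :=
  Polynomial.lsum (fun n => LinearMap.toSpanSingleton k _ (NF k n))

lemma Lam_X_pow (n : ℕ) : Lam k (Polynomial.X ^ n) = NF k n := by
  unfold Lam
  rw [← Polynomial.monomial_one_right_eq_X_pow, Polynomial.lsum_apply,
    Polynomial.sum_monomial_index]
  · simp
  · simp

lemma Lam_aeval (f : MvPolynomial (Fin 4) k) :
    Lam k (aeval (fun i => (Polynomial.X : Polynomial k) ^ (![6, 7, 8, 9] : Fin 4 → ℕ) i) f) =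
      Ideal.Quotient.mk (J k) f := by
  induction f using MvPolynomial.induction_on' with
  | monomial u a =>
    have h1 : monomial u a = a • (monomial u (1 : k) : MvPolynomial (Fin 4) k) := by
      rw [smul_monomial, smul_eq_mul, mul_one]
    have h2 : aeval (fun i => (Polynomial.X : Polynomial k) ^ (![6, 7, 8, 9] : Fin 4 → ℕ) i)
        (monomial u (1 : k)) = Polynomial.X ^ wt u := by
      rw [aeval_monomial, map_one, one_mul, Finsupp.prod_fintype _ _ (fun i => pow_zero _)]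
      unfold wt
      rw [Finset.prod_congr rfl (fun i _ => (pow_mul (Polynomial.X : Polynomial k) _ _).symm),
        Finset.prod_pow_eq_pow_sum]
      congr 1
      exact Finset.sum_congr rfl fun i _ => mul_comm _ _
    rw [h1, map_smul, map_smul, h2, Lam_X_pow, NF_eq k (P_monomial k u)]
    rfl
  | add p q hp hq => rw [map_add, map_add, hp, hq, map_add]

lemma defIdeal_eq : defIdeal k ![6, 7, 8, 9] = J k := by
  refine le_antisymm (fun f hf => ?_) (J_le k)
  have h1 : aeval (fun i => (Polynomial.X : Polynomial k) ^ (![6, 7, 8, 9] : Fin 4 → ℕ) i) f = 0 :=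
    hf
  have h2 := Lam_aeval k f
  rw [h1, map_zero] at h2
  exact Ideal.Quotient.eq_zero_iff_mem.1 h2.symm

lemma rel_coeff (i : Fin 4) (y : Fin 4 →₀ ℕ) (hy : y.degree < 2) : coeff y (rel k i) = 0 := by
  have hX : ∀ i : Fin 4, (X i : MvPolynomial (Fin 4) k).IsHomogeneous 1 :=
    fun i => isHomogeneous_X k i
  have h2 : ∀ i j : Fin 4, coeff y (X i * X j : MvPolynomial (Fin 4) k) = 0 := by
    intro i j
    exact ((hX i).mul (hX j)).coeff_eq_zero (by omega)
  have h3 : coeff y (X 0 ^ 3 : MvPolynomial (Fin 4) k) = 0 :=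
    ((hX 0).pow 3).coeff_eq_zero (by omega)
  fin_cases i <;> simp [rel, h2, h3]

lemma low {f : MvPolynomial (Fin 4) k} (hf : f ∈ J k) (y : Fin 4 →₀ ℕ) (hy : y.degree < 2) :
    coeff y f = 0 := by
  classical
  induction hf using Submodule.span_induction generalizing y with
  | mem x h =>
    obtain ⟨i, rfl⟩ := h
    exact rel_coeff k i y hy
  | zero => simp
  | add a b _ _ ha hb => rw [coeff_add, ha y hy, hb y hy, add_zero]
  | smul a b _ hb =>
    rw [smul_eq_mul, coeff_mul]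
    refine Finset.sum_eq_zero fun p hp => ?_
    rw [Finset.HasAntidiagonal.mem_antidiagonal] at hp
    have : p.2.degree ≤ y.degree := by
      rw [← hp, map_add]; omega
    rw [hb p.2 (by omega), mul_zero]

lemma coeff_two {f : MvPolynomial (Fin 4) k} (hf : f ∈ J k) (a : MvPolynomial (Fin 4) k)
    (D : Fin 4 →₀ ℕ) (hD : D.degree = 2) : coeff D (a * f) = coeff 0 a * coeff D f := by
  classical
  rw [coeff_mul, Finset.sum_eq_single (0, D)]
  · rintro ⟨x, y⟩ hp hne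
    rw [Finset.HasAntidiagonal.mem_antidiagonal] at hp
    simp only at hp ⊢
    have h1 : y.degree < 2 := by
      have h2 : x.degree + y.degree = 2 := by rw [← map_add, hp, hD]
      have h3 : x.degree ≠ 0 := by
        intro h0
        rw [Finsupp.degree_eq_zero_iff] at h0
        apply hne
        rw [h0, zero_add] at hp
        rw [h0, hp]
      omega
    rw [low k hf y h1, mul_zero]
  · intro h
    exact absurd (Finset.HasAntidiagonal.mem_antidiagonal.2 (zero_add D)) h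

/-- the four monomials `y^2, y z, z^2, w^2` -/
noncomputable def D4 : Fin 4 → (Fin 4 →₀ ℕ) :=
  ![Finsupp.single 1 1 + Finsupp.single 1 1, Finsupp.single 1 1 + Finsupp.single 2 1,
    Finsupp.single 2 1 + Finsupp.single 2 1, Finsupp.single 3 1 + Finsupp.single 3 1]

lemma D4_degree (j : Fin 4) : (D4 j).degree = 2 := by
  fin_cases j <;> simp [D4, Finsupp.degree_single]

/-- four coefficients -/
noncomputable def Q : MvPolynomial (Fin 4) k →ₗ[k] (Fin 4 → k) :=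
  LinearMap.pi fun j => lcoeff k (D4 j)

lemma Q_apply (f : MvPolynomial (Fin 4) k) (j : Fin 4) : Q k f j = coeff (D4 j) f := rfl

lemma coeff_mon (u w : Fin 4 →₀ ℕ) :
    coeff u (monomial w (1 : k)) = if (∀ i, w i = u i) then 1 else 0 := by
  classical
  rw [coeff_monomial]
  congr 1
  simp [Finsupp.ext_iff]

lemma XX (i j : Fin 4) : (X i * X j : MvPolynomial (Fin 4) k) =
    monomial (Finsupp.single i 1 + Finsupp.single j 1) 1 := by
  simp [X, monomial_mul]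

lemma XXX (i : Fin 4) : (X i ^ 3 : MvPolynomial (Fin 4) k) = monomial (Finsupp.single i 3) 1 := by
  simp [X, monomial_pow]

lemma Q_rel (i : Fin 4) : Q k (rel k i) = Pi.single i 1 := by
  classical
  funext j
  rw [Q_apply]
  fin_cases i <;> fin_cases j <;>
    simp [-coeff_monomial, rel, D4, XX, XXX, coeff_mon, Fin.forall_fin_succ]

lemma card_ge (s : Finset (MvPolynomial (Fin 4) k))
    (hs : Ideal.span (s : Set (MvPolynomial (Fin 4) k)) = J k) : 4 ≤ s.card := by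
  classical
  have hsub : ∀ f ∈ s, f ∈ J k := fun f hf => hs ▸ Ideal.subset_span hf
  have hQ : ∀ f ∈ J k, Q k f ∈ Submodule.span k ((s.image (Q k) : Finset (Fin 4 → k)) :
      Set (Fin 4 → k)) := by
    intro f hf
    rw [← hs] at hf
    induction hf using Submodule.span_induction with
    | mem x h => exact Submodule.subset_span (by
        rw [Finset.coe_image]; exact ⟨x, h, rfl⟩)
    | zero => rw [map_zero]; exact Submodule.zero_mem _
    | add a b _ _ ha hb => rw [map_add]; exact Submodule.add_mem _ ha hb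
    | smul a b hb0 hb =>
      have hbJ : b ∈ J k := hs ▸ hb0
      have : Q k (a • b) = coeff 0 a • Q k b := by
        funext j
        rw [Pi.smul_apply, Q_apply, Q_apply, smul_eq_mul, smul_eq_mul]
        exact coeff_two k hbJ a _ (D4_degree j)
      rw [this]
      exact Submodule.smul_mem _ _ hb
  have htop : Submodule.span k ((s.image (Q k) : Finset (Fin 4 → k)) : Set (Fin 4 → k)) = ⊤ := by
    rw [eq_top_iff, ← (Pi.basisFun k (Fin 4)).span_eq, Submodule.span_le]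
    rintro _ ⟨i, rfl⟩
    rw [Pi.basisFun_apply, ← Q_rel]
    exact hQ _ (Ideal.subset_span ⟨i, rfl⟩)
  have h1 := finrank_span_finset_le_card (R := k) (s.image (Q k))
  rw [Set.finrank, htop, finrank_top, Module.finrank_fin_fun] at h1
  exact h1.trans Finset.card_image_le

lemma rho_eq : rho k ![6, 7, 8, 9] = 4 := by
  classical
  unfold rho
  rw [defIdeal_eq]
  have hmem : 4 ∈ {n | ∃ s : Finset (MvPolynomial (Fin 4) k), s.card = n ∧
      Ideal.span (s : Set (MvPolynomial (Fin 4) k)) = J k} := by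
    have hinj : Function.Injective (rel k) := by
      intro i j hij
      have h := congrArg (Q k) hij
      rw [Q_rel, Q_rel] at h
      by_contra hne
      have := congrFun h i
      rw [Pi.single_eq_same, Pi.single_eq_of_ne hne] at this
      exact one_ne_zero this
    refine ⟨Finset.univ.image (rel k), ?_, ?_⟩
    · rw [Finset.card_image_of_injective _ hinj]; rfl
    · rw [Finset.coe_image, Finset.coe_univ, Set.image_univ]; rfl
  refine le_antisymm (Nat.sInf_le hmem) ?_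
  refine le_csInf ⟨4, hmem⟩ ?_
  rintro n ⟨s, rfl, hs⟩
  exact card_ge k s hs

end ideal

/-- There is a nearly Gorenstein, not almost symmetric numerical semigroup of embedding dimension
four whose defining ideal has minimal number of generators four, over every field. -/
theorem result : ∃ (Γ : AddSubmonoid ℕ) (g : Fin 4 → ℕ),
    ((Γ : Set ℕ)ᶜ).Finite ∧ StrictMono g ∧ Set.range g = {n | IsMinGen Γ n} ∧
    NearlyGorenstein Γ ∧ ¬ AlmostSymmetric Γ ∧
    ∀ (k : Type u) [Field k], rho k g = 4 := by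
  refine ⟨Gam, ![6, 7, 8, 9], ?_, by decide, ?_, nearly, not_almost, fun k _ => rho_eq k⟩
  · refine (Set.finite_Iio 12).subset fun n hn => ?_
    have hn' : ¬ n ∈ Gam := hn
    rw [mem_Gam] at hn'
    simp only [Set.mem_Iio]
    omega
  · ext n
    rw [Set.mem_range]
    constructor
    · rintro ⟨i, rfl⟩
      refine (minGen_Gam _).2 ?_
      fin_cases i <;> simp
    · intro h
      have h' := (minGen_Gam n).1 h
      have : n = 6 ∨ n = 7 ∨ n = 8 ∨ n = 9 := by omega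
      rcases this with rfl | rfl | rfl | rfl
      · exact ⟨0, rfl⟩
      · exact ⟨1, rfl⟩
      · exact ⟨2, rfl⟩
      · exact ⟨3, rfl⟩

end Pool.Agent.Results.MP_8e9e7d_al.FourRelations
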